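import Mathlib

/-!
# Contrapositive symmetries of fuzzy implications

Under (CP) the laws (L-CP) and (R-CP) are equivalent, for one and the same negation `N`, without any
assumption on `N` beyond those of a fuzzy negation. In particular (CP) and (L-CP) imply (R-CP).
Proof of the latter: `I(x,N(y)) = I(N(N(y)),N(x))` by (CP), `= I(N(N(x)),N(y))` by (L-CP) for
`N(y), N(x)`, and `= I(y,N(x))` by (CP).
-/

set_option autoImplicit false

namespace Pool.Agent.Results.MP_478a43_lc.CPandLCPimplyRCP

open unitInterval

/-- A fuzzy negation: a non-increasing map of `[0,1]` to itself with `N 0 = 1` and `N 1 = 0`. -/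
def IsFuzzyNegation (N : I → I) : Prop :=
  (∀ x y : I, x ≤ y → N y ≤ N x) ∧ N 0 = 1 ∧ N 1 = 0

/-- A fuzzy implication: non-increasing in the first variable, non-decreasing in the second one,
with the boundary values `J 0 0 = J 1 1 = 1` and `J 1 0 = 0`. -/
def IsFuzzyImplication (J : I → I → I) : Prop :=
  (∀ x x' y : I, x ≤ x' → J x' y ≤ J x y) ∧ (∀ x y y' : I, y ≤ y' → J x y ≤ J x y') ∧
    J 0 0 = 1 ∧ J 1 1 = 1 ∧ J 1 0 = 0

/-- The law (CP) with respect to `N`. -/
def CP (J : I → I → I) (N : I → I) : Prop := ∀ x y : I, J x y = J (N y) (N x)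

/-- The law (L-CP) with respect to `N`. -/
def LCP (J : I → I → I) (N : I → I) : Prop := ∀ x y : I, J (N x) y = J (N y) x

/-- The law (R-CP) with respect to `N`. -/
def RCP (J : I → I → I) (N : I → I) : Prop := ∀ x y : I, J x (N y) = J y (N x)

/-- For every fuzzy implication `J` and every fuzzy negation `N` such that `J` satisfies (CP) with
respect to `N`, the laws (L-CP) and (R-CP) with respect to `N` are equivalent. In particular (CP)
and (L-CP) imply (R-CP). -/
theorem result : ∀ (J : I → I → I) (N : I → I), IsFuzzyImplication J → IsFuzzyNegation N →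
    CP J N → (LCP J N ↔ RCP J N) := by
  intro J N _ _ h
  constructor
  · intro hL x y
    rw [h x (N y), hL (N y) (N x), ← h y (N x)]
  · intro hR x y
    rw [h (N x) y, hR (N y) (N x), ← h (N y) x]

end Pool.Agent.Results.MP_478a43_lc.CPandLCPimplyRCP
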